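import Pool.Agent.H4.BKH.CHRb
import Pool.Agent.H8.TD.Fin
import Pool.Agent.H39.TD.RED

/-!
# The equation of a linear form over the coordinates of a map (row CHR of bkh_modules)
-/

set_option autoImplicit false

open MvPolynomial
open Pool.Agent.H12.ZD (pmap v O Res DenseOrbit NoInv)
open Pool.Agent.H18.HIT
open Pool.Agent.H8.ZA (HFam Const NA sz)
open Pool.Agent.H8.TD

namespace Pool.Agent.H4.BKH

open Pool.Agent.H18.TE

section

variable {k : Type} [Field k]

theorem sum_eq (T : Po 3 k →+* k) (p : Polynomial (Po 3 k)) (r : k) :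
    ∑ j : Fin (p.natDegree + 1), T (p.coeff (p.natDegree - (j : ℕ))) *
      r ^ (p.natDegree - (j : ℕ)) = Polynomial.eval₂ T r p := by
  rw [Polynomial.eval₂_eq_sum_range,
    Fin.sum_univ_eq_sum_range (fun j => T (p.coeff (p.natDegree - j)) *
      r ^ (p.natDegree - j)) (p.natDegree + 1),
    ← Finset.sum_range_reflect (fun j => T (p.coeff j) * r ^ j) (p.natDegree + 1)]
  refine Finset.sum_congr rfl fun j _ => ?_
  rw [Nat.add_sub_cancel]

theorem aeval_xx (p : Po 3 k) : aeval (xx k) p = algebraMap (Po 3 k) (K3 k) p := by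
  have h : (aeval (xx k) : Po 3 k →ₐ[k] K3 k) = IsScalarTower.toAlgHom k (Po 3 k) (K3 k) := by
    apply MvPolynomial.algHom_ext
    intro i
    rw [aeval_X]
    rfl
  exact DFunLike.congr_fun h p

theorem lc_xx (s : Fin 3 → k) :
    lc s (xx k) = algebraMap (Po 3 k) (K3 k) (∑ i, C (s i) * X i) := by
  rw [map_sum]
  unfold lc
  refine Finset.sum_congr rfl fun i _ => ?_
  rw [map_mul, Algebra.smul_def, IsScalarTower.algebraMap_apply k (Po 3 k) (K3 k)]
  rfl

/-- the relation at a point -/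
theorem rel_point {g0 : Po 3 k} (hg0 : g0 ≠ 0) (g : Fin 3 → Po 3 k) (s : Fin 3 → k)
    {p : Polynomial (Po 3 k)}
    (hp : psi (fun i => algebraMap (Po 3 k) (K3 k) (g i) / algebraMap (Po 3 k) (K3 k) g0)
      (lc s (xx k)) p = 0) (w : Fin 3 → k) (hw : eval w g0 ≠ 0) :
    th (fun i => eval w (g i) / eval w g0) (lc s w) p = 0 := by
  obtain ⟨ev, hev⟩ := exists_ev g0 hg0 w hw
  have hunit : IsUnit (algebraMap (Po 3 k) (Rq g0 hg0) g0) :=
    IsLocalization.map_units (Rq g0 hg0) (⟨g0, 1, pow_one _⟩ : Submonoid.powers g0)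
  obtain ⟨ι, hι⟩ := hunit.exists_right_inv
  have hval : ∀ q : Po 3 k, ((algebraMap (Po 3 k) (Rq g0 hg0) q : Rq g0 hg0) : K3 k) =
      algebraMap (Po 3 k) (K3 k) q := fun q => rfl
  have hg0K : algebraMap (Po 3 k) (K3 k) g0 ≠ 0 := fun h =>
    hg0 ((map_eq_zero_iff _ (IsFractionRing.injective (Po 3 k) (K3 k))).1 h)
  have hιK : algebraMap (Po 3 k) (K3 k) g0 * (ι : K3 k) = 1 := congrArg Subtype.val hι
  have hιe : eval w g0 * ev ι = 1 := by
    rw [← hev, ← map_mul, hι, map_one]
  let φ' : Fin 3 → Rq g0 hg0 := fun i => algebraMap (Po 3 k) (Rq g0 hg0) (g i) * ι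
  let l' : Rq g0 hg0 := algebraMap (Po 3 k) (Rq g0 hg0) (∑ i, C (s i) * X i)
  let f : Po 3 k →+* Rq g0 hg0 := (aeval φ' : Po 3 k →ₐ[k] Rq g0 hg0).toRingHom
  have h1 : Polynomial.eval₂ f l' p = 0 := by
    have h2 : ((Polynomial.eval₂ f l' p : Rq g0 hg0) : K3 k) = 0 := by
      change (Rq g0 hg0).val.toRingHom (Polynomial.eval₂ f l' p) = 0
      rw [Polynomial.hom_eval₂, ← hp]
      unfold psi
      rw [Polynomial.coe_eval₂RingHom]
      have h3 : (Rq g0 hg0).val.toRingHom.comp f = (aeval (fun i =>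
          algebraMap (Po 3 k) (K3 k) (g i) / algebraMap (Po 3 k) (K3 k) g0) :
          Po 3 k →ₐ[k] K3 k).toRingHom := by
        apply MvPolynomial.ringHom_ext
        · intro c
          change ((aeval φ' (C c) : Rq g0 hg0) : K3 k) = aeval _ (C c)
          rw [aeval_C, aeval_C]
          rfl
        · intro i
          change ((aeval φ' (X i) : Rq g0 hg0) : K3 k) = aeval _ (X i)
          rw [aeval_X, aeval_X]
          change algebraMap (Po 3 k) (K3 k) (g i) * (ι : K3 k) = _
          rw [eq_div_iff hg0K, mul_assoc, mul_comm (ι : K3 k), hιK, mul_one]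
      rw [h3, lc_xx]
      rfl
    exact Subtype.ext h2
  have h2 := congrArg ev.toRingHom h1
  rw [Polynomial.hom_eval₂, map_zero] at h2
  rw [← h2]
  unfold th
  rw [Polynomial.coe_eval₂RingHom]
  have h3 : ev.toRingHom.comp f = eval (fun i => eval w (g i) / eval w g0) := by
    apply MvPolynomial.ringHom_ext
    · intro c
      change ev (aeval φ' (C c)) = eval _ (C c)
      rw [aeval_C, eval_C, AlgHom.commutes]
      rfl
    · intro i
      change ev (aeval φ' (X i)) = eval _ (X i)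
      rw [aeval_X, eval_X, map_mul, hev, eq_div_iff hw, mul_assoc, mul_comm (ev ι), hιe, mul_one]
  rw [h3]
  congr 1
  change lc s w = ev (algebraMap (Po 3 k) (Rq g0 hg0) (∑ i, C (s i) * X i))
  rw [hev, map_sum]
  unfold lc
  refine Finset.sum_congr rfl fun i _ => ?_
  rw [map_mul, eval_C, eval_X, smul_eq_mul]

/-- the homogenizations have no common factor -/
theorem cop_hz [Infinite k] {m : ℕ} (f : Fin m → Po 3 k) {Y : ℕ}
    (hY : ∀ i, (f i).totalDegree ≤ Y) (hY0 : ∃ i, (f i).totalDegree = Y ∧ f i ≠ 0)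
    (hf : ∀ d, Irreducible d → ∃ i, ¬ d ∣ f i) : Cop fun i => hz Y (f i) := by
  intro Q hQ
  by_contra hcon
  push Not at hcon
  obtain ⟨i0, hi0, hi0'⟩ := hY0
  have hdh : ∀ i, dh (hz Y (f i)) = f i := fun i => dh_hz (hY i)
  have hP0 : hz Y (f i0) ≠ 0 := by
    intro h
    apply hi0'
    rw [← hdh, h, map_zero]
  obtain ⟨q', hq'⟩ := hcon i0
  have hq'0 : q' ≠ 0 := by
    rintro rfl
    exact hP0 (by rw [hq', mul_zero])
  obtain ⟨b, c, -, hb, -⟩ := Pool.Agent.H39.TD.homog_mul (by
    rw [← hq']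
    exact hz_hom (hY i0)) hQ.ne_zero hq'0
  have hdhd : ∀ i, dh Q ∣ f i := by
    intro i
    rw [← hdh i]
    exact map_dvd dh (hcon i)
  have hdh0 : dh Q ≠ 0 := by
    intro h
    have h1 := hdhd i0
    rw [h, zero_dvd_iff] at h1
    exact hi0' h1
  have hunit : IsUnit (dh Q) := by
    by_contra hu
    obtain ⟨d, hd, hdd⟩ := WfDvdMonoid.exists_irreducible_factor hu hdh0
    obtain ⟨i, hi⟩ := hf d hd
    exact hi (hdd.trans (hdhd i))
  obtain ⟨c0, hc0⟩ : ∃ c0 : k, dh Q = C c0 := by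
    rw [MvPolynomial.isUnit_iff_eq_C_of_isReduced] at hunit
    obtain ⟨r, -, hr⟩ := hunit
    exact ⟨r, hr⟩
  have hc00 : c0 ≠ 0 := by
    rintro rfl
    rw [C_0] at hc0
    exact hdh0 hc0
  have hQX : Q = C c0 * X 0 ^ b := by
    have h1 : (Q - C c0 * X 0 ^ b) * X 0 = 0 := by
      apply MvPolynomial.funext
      intro y
      rw [map_mul, map_sub, map_mul, map_pow, eval_X, eval_C, map_zero]
      by_cases hy : y 0 = 0
      · rw [hy, mul_zero]
      · rw [eval_aff hb hy, hc0, eval_C]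
        ring
    have h2 := (mul_eq_zero.1 h1).resolve_right (X_ne_zero 0)
    exact sub_eq_zero.1 h2
  have hb0 : b ≠ 0 := by
    rintro rfl
    apply hQ.not_isUnit
    rw [hQX, pow_zero, mul_one]
    exact (isUnit_iff_ne_zero.2 hc00).map C
  have hX : (X 0 : Po 4 k) ∣ hz Y (f i0) := by
    refine Dvd.dvd.trans ?_ (hcon i0)
    rw [hQX]
    exact Dvd.dvd.mul_left (dvd_pow_self _ hb0) _
  obtain ⟨t, ht⟩ := hX
  have ht0 : t ≠ 0 := by
    rintro rfl
    exact hP0 (by rw [ht, mul_zero])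
  obtain ⟨b', c', hbc, hb', hc'⟩ := Pool.Agent.H39.TD.homog_mul (by
    rw [← ht]
    exact hz_hom (hY i0)) (X_ne_zero (R := k) (0 : Fin 4)) ht0
  have h1 : b' = 1 := hb'.inj_right (isHomogeneous_X k 0) (X_ne_zero 0)
  have h2 : f i0 = dh t := by
    rw [← hdh i0, ht, map_mul]
    have h3 : dh (X 0 : Po 4 k) = 1 := by
      unfold dh
      rw [aeval_X, Fin.cons_zero]
    rw [h3, one_mul]
  have h3 : (f i0).totalDegree ≤ c' := by
    rw [h2]
    exact (totalDegree_dh_le t).trans hc'.totalDegree_le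
  omega

end

theorem pf_CHR : T_CHR := by
  classical
  intro G a s _ _ hg0 halg
  set φ : Fin 3 → K3 Qb := fun i => qt (G i.succ) (G 0) with hφdef
  set l := lc s (xx Qb) with hl
  have htr := trdeg_K3 Qb
  have hφ := (tb_of_gen φ halg htr).1
  have hint : ∀ y : K3 Qb, IsIntegral (IntermediateField.adjoin Qb (Set.range φ)) y :=
    fun y => (halg.isAlgebraic y).isIntegral
  obtain ⟨q, hq0, hq1, -⟩ := exists_poly l (hint l)
  obtain ⟨p, hp⟩ := exists_minP hφ ⟨q, hq0, hq1⟩
  have hinj := hφ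
  rw [algebraicIndependent_iff_injective_aeval] at hinj
  have hE : 1 ≤ p.natDegree := by
    by_contra hcon
    have h1 : p.natDegree = 0 := by omega
    rw [Polynomial.natDegree_eq_zero] at h1
    obtain ⟨c, hc⟩ := h1
    have h2 := hp.root
    rw [← hc, psi_C] at h2
    apply hp.ne
    rw [← hc, (map_eq_zero_iff _ hinj).1 h2, Polynomial.C_0]
  -- the degree
  obtain ⟨j0, hj0, hj0'⟩ := Finset.exists_mem_eq_sup (Finset.range (p.natDegree + 1))
    ⟨0, Finset.mem_range.2 (Nat.succ_pos _)⟩ (fun j => (p.coeff j).totalDegree)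
  set Y := (Finset.range (p.natDegree + 1)).sup (fun j => (p.coeff j).totalDegree) with hYdef
  have hY : ∀ j, (p.coeff j).totalDegree ≤ Y := by
    intro j
    by_cases hj : j ≤ p.natDegree
    · exact Finset.le_sup (f := fun j => (p.coeff j).totalDegree)
        (Finset.mem_range.2 (Nat.lt_succ_of_le hj))
    · rw [Polynomial.coeff_eq_zero_of_natDegree_lt (by omega), totalDegree_zero]
      exact Nat.zero_le _
  -- the common denominator
  let y : Option (Fin 3) → K3 Qb := fun o => Option.elim o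
    (1 / algebraMap (Po 3 Qb) (K3 Qb) (dh (G 0))) (fun i => xx Qb i)
  have hyq : ∀ o, ∃ q : Polynomial (Po 3 Qb), q ≠ 0 ∧ psi φ (y o) q = 0 := by
    intro o
    obtain ⟨q, hq0, hq1, -⟩ := exists_poly (y o) (hint (y o))
    exact ⟨q, hq0, hq1⟩
  choose qo hqo0 hqo1 using hyq
  set cc : Po 3 Qb := ∏ o, (qo o).leadingCoeff with hcc
  have hcc0 : cc ≠ 0 := Finset.prod_ne_zero_iff.2 fun o _ =>
    Polynomial.leadingCoeff_ne_zero.2 (hqo0 o)
  have hy : ∀ o, ∃ q : Polynomial (Po 3 Qb), q.leadingCoeff = cc ∧ psi φ (y o) q = 0 := by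
    intro o
    refine ⟨Polynomial.C (∏ o' ∈ Finset.univ.erase o, (qo o').leadingCoeff) * qo o, ?_, ?_⟩
    · rw [Polynomial.leadingCoeff_mul, Polynomial.leadingCoeff_C, hcc,
        ← Finset.mul_prod_erase _ _ (Finset.mem_univ o), mul_comm]
    · rw [map_mul, hqo1, mul_zero]
  have hlp : p.leadingCoeff ≠ 0 := Polynomial.leadingCoeff_ne_zero.2 hp.ne
  have hcl : cc * p.leadingCoeff ≠ 0 := mul_ne_zero hcc0 hlp
  refine ⟨p.natDegree, Y, fun j => hz Y (p.coeff (p.natDegree - (j : ℕ))),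
    X 0 * hz (cc * p.leadingCoeff).totalDegree (cc * p.leadingCoeff), hE,
    fun j => hz_hom (hY _), ?_, ?_, ?_, fun s' s'' => deg_ineq htr halg hp hY s' s'', ?_, ?_⟩
  · apply cop_hz _ (fun j => hY _)
    · have hj1 : j0 ≤ p.natDegree := Nat.lt_succ_iff.1 (Finset.mem_range.1 hj0)
      by_cases hYz : Y = 0
      · refine ⟨⟨0, Nat.succ_pos _⟩, ?_, ?_⟩
        · have h1 := hY (p.natDegree - ((⟨0, Nat.succ_pos _⟩ : Fin (p.natDegree + 1)) : ℕ))
          omega
        · change p.coeff (p.natDegree - 0) ≠ 0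
          rw [Nat.sub_zero]
          exact hlp
      · refine ⟨⟨p.natDegree - j0, by omega⟩, ?_, ?_⟩
        · change (p.coeff (p.natDegree - (p.natDegree - j0))).totalDegree = Y
          rw [Nat.sub_sub_self hj1]
          exact hj0'.symm
        · change p.coeff (p.natDegree - (p.natDegree - j0)) ≠ 0
          rw [Nat.sub_sub_self hj1]
          intro h
          rw [h, totalDegree_zero] at hj0'
          exact hYz hj0'
    · intro d hd
      obtain ⟨j, hj⟩ := hp.cop d hd
      have hj1 : j ≤ p.natDegree := by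
        by_contra hcon
        rw [Polynomial.coeff_eq_zero_of_natDegree_lt (by omega)] at hj
        exact hj (dvd_zero _)
      refine ⟨⟨p.natDegree - j, by omega⟩, ?_⟩
      change ¬ d ∣ p.coeff (p.natDegree - (p.natDegree - j))
      rw [Nat.sub_sub_self hj1]
      exact hj
  · intro h
    have h1 : dh (hz Y (p.coeff (p.natDegree - ((0 : Fin (p.natDegree + 1)) : ℕ)))) = 0 := by
      have h' : hz Y (p.coeff (p.natDegree - ((0 : Fin (p.natDegree + 1)) : ℕ))) = 0 := h
      rw [h', map_zero]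
    rw [dh_hz (hY _)] at h1
    have h2 : p.natDegree - ((0 : Fin (p.natDegree + 1)) : ℕ) = p.natDegree := by
      rw [Fin.val_zero, Nat.sub_zero]
    rw [h2] at h1
    exact hlp h1
  · refine mul_ne_zero (X_ne_zero 0) fun h => hcl ?_
    rw [← dh_hz (le_refl (cc * p.leadingCoeff).totalDegree), h, map_zero]
  · intro w hw
    have h1 := rel_point hg0 (fun i => dh (G i.succ)) s hp.root w hw
    have hy0 : pmap G (Fin.cons 1 w) 0 ≠ 0 := by
      change eval (Fin.cons 1 w) (G 0) ≠ 0
      rw [← eval_dh]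
      exact hw
    have haff : aff (pmap G (Fin.cons 1 w)) = fun i => eval w (dh (G i.succ)) /
        eval w (dh (G 0)) := by
      funext i
      change eval (Fin.cons 1 w) (G i.succ) / eval (Fin.cons 1 w) (G 0) = _
      rw [eval_dh, eval_dh]
    have h2 : ∀ j : Fin (p.natDegree + 1),
        eval (pmap G (Fin.cons 1 w)) (hz Y (p.coeff (p.natDegree - (j : ℕ)))) *
          lc s w ^ (p.natDegree - (j : ℕ)) = pmap G (Fin.cons 1 w) 0 ^ Y *
        (eval (fun i => eval w (dh (G i.succ)) / eval w (dh (G 0)))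
          (p.coeff (p.natDegree - (j : ℕ))) * lc s w ^ (p.natDegree - (j : ℕ))) := by
      intro j
      rw [eval_hz (hY _) hy0, haff, mul_assoc]
    rw [Finset.sum_congr rfl fun j _ => h2 j, ← Finset.mul_sum, sum_eq]
    have h3 : Polynomial.eval₂ (eval (fun i => eval w (dh (G i.succ)) / eval w (dh (G 0))))
        (lc s w) p = 0 := h1
    rw [h3, mul_zero]
  · intro x hx r hr
    rw [map_mul, eval_X] at hx
    have hx0 : x 0 ≠ 0 := left_ne_zero_of_mul hx
    have hx1 := right_ne_zero_of_mul hx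
    rw [eval_hz le_rfl hx0] at hx1
    have hx2 := right_ne_zero_of_mul hx1
    rw [map_mul] at hx2
    have hcu : eval (aff x) cc ≠ 0 := left_ne_zero_of_mul hx2
    have hlu : eval (aff x) p.leadingCoeff ≠ 0 := right_ne_zero_of_mul hx2
    have hth : th (aff x) r p = 0 := by
      have h2 : ∀ j : Fin (p.natDegree + 1),
          eval x (hz Y (p.coeff (p.natDegree - (j : ℕ)))) * r ^ (p.natDegree - (j : ℕ)) =
          x 0 ^ Y * (eval (aff x) (p.coeff (p.natDegree - (j : ℕ))) *
            r ^ (p.natDegree - (j : ℕ))) := by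
        intro j
        rw [eval_hz (hY _) hx0, mul_assoc]
      rw [Finset.sum_congr rfl fun j _ => h2 j, ← Finset.mul_sum, sum_eq] at hr
      exact (mul_eq_zero.1 hr).resolve_left (pow_ne_zero _ hx0)
    obtain ⟨w', hw'⟩ := exists_point hp y cc hy hlu hcu hth
    set w : Fin 3 → Qb := fun i => w' (some i) with hwdef
    let e : Fin 3 → Fin 3 ⊕ Unit ⊕ Option (Fin 3) := fun i => Sum.inr (Sum.inr (some i))
    have hea : ∀ f : Po 3 Qb, aeval (Sum.elim φ (Sum.elim (fun _ => l) y)) (rename e f) =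
        algebraMap (Po 3 Qb) (K3 Qb) f := by
      intro f
      rw [aeval_rename]
      exact aeval_xx f
    have hee : ∀ f : Po 3 Qb, eval (Sum.elim (aff x) (Sum.elim (fun _ => r) w')) (rename e f) =
        eval w f := by
      intro f
      rw [eval_rename]
      rfl
    have hg0K : algebraMap (Po 3 Qb) (K3 Qb) (dh (G 0)) ≠ 0 := fun h =>
      hg0 ((map_eq_zero_iff _ (IsFractionRing.injective (Po 3 Qb) (K3 Qb))).1 h)
    have hw0 : eval w (dh (G 0)) ≠ 0 := by
      have h1 := hw' (rename e (dh (G 0)) * X (Sum.inr (Sum.inr none)) - 1) (by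
        rw [map_sub, map_mul, hea, aeval_X, map_one]
        change algebraMap (Po 3 Qb) (K3 Qb) (dh (G 0)) *
          (1 / algebraMap (Po 3 Qb) (K3 Qb) (dh (G 0))) - 1 = 0
        rw [mul_one_div_cancel hg0K, sub_self])
      rw [map_sub, map_mul, hee, map_one] at h1
      intro h
      rw [h, zero_mul, zero_sub] at h1
      exact one_ne_zero (neg_eq_zero.1 h1)
    refine ⟨w, hw0, ?_, ?_⟩
    · funext i
      have h1 := hw' (X (Sum.inl i) * rename e (dh (G 0)) - rename e (dh (G i.succ))) (by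
        rw [map_sub, map_mul, hea, hea, aeval_X, Sum.elim_inl]
        change algebraMap (Po 3 Qb) (K3 Qb) (dh (G i.succ)) /
          algebraMap (Po 3 Qb) (K3 Qb) (dh (G 0)) * _ - _ = 0
        rw [div_mul_cancel₀ _ hg0K, sub_self])
      rw [map_sub, map_mul, hee, hee, eval_X, Sum.elim_inl] at h1
      change eval (Fin.cons 1 w) (G i.succ) / eval (Fin.cons 1 w) (G 0) = aff x i
      rw [← eval_dh, ← eval_dh, div_eq_iff hw0]
      exact (sub_eq_zero.1 h1).symm
    · have h1 := hw' (X (Sum.inr (Sum.inl ())) - rename e (∑ i, C (s i) * X i)) (by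
        rw [map_sub, hea, aeval_X, Sum.elim_inr, Sum.elim_inl, hl, lc_xx, sub_self])
      rw [map_sub, hee, eval_X, Sum.elim_inr, Sum.elim_inl] at h1
      rw [sub_eq_zero.1 h1, map_sum]
      unfold lc
      refine Finset.sum_congr rfl fun i _ => ?_
      rw [map_mul, eval_C, eval_X, smul_eq_mul]

end Pool.Agent.H4.BKH
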