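import Pool.Agent.H4.BKH.CHRa
import Pool.Agent.H98.TD.ADJ
import Pool.Agent.H14.TD.EXT

/-!
# The degree inequality (row CHR of bkh_modules, part b)
-/

set_option autoImplicit false

open MvPolynomial
open Pool.Agent.H8.TD

namespace Pool.Agent.H4.BKH

section deg

variable {k K : Type} [Field k] [Field K] [Algebra k K]

theorem tb_of_gen (t : Fin 3 → K)
    (halg : Algebra.IsAlgebraic (IntermediateField.adjoin k (Set.range t)) K)
    (htr : Algebra.trdeg k K = 3) : IsTranscendenceBasis k t := by
  have h1 : Algebra.IsAlgebraic (Algebra.adjoin k (Set.range t)) K :=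
    Pool.Agent.H14.TD.alg_trans (Set.range t) t halg (fun i => isAlgebraic_algebraMap
      (⟨t i, Algebra.subset_adjoin ⟨i, rfl⟩⟩ : Algebra.adjoin k (Set.range t)))
  exact Algebra.IsAlgebraic.isTranscendenceBasis_of_le_trdeg_of_finite k t
    (by rw [htr]; simp)

theorem exists_frac {φ : Fin 3 → K} {x : K}
    (hx : x ∈ IntermediateField.adjoin k (Set.range φ)) :
    ∃ r s : MvPolynomial (Fin 3) k, aeval φ s ≠ 0 ∧ x * aeval φ s = aeval φ r := by
  obtain ⟨r, s, rfl⟩ := (IntermediateField.mem_adjoin_range_iff k φ x).1 hx
  by_cases hs : aeval φ s = 0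
  · refine ⟨0, 1, ?_, ?_⟩
    · rw [map_one]
      exact one_ne_zero
    · rw [hs, div_zero, zero_mul, map_zero]
  · exact ⟨r, s, hs, div_mul_cancel₀ _ hs⟩

theorem exists_poly {φ : Fin 3 → K} (y : K)
    (hy : IsIntegral (IntermediateField.adjoin k (Set.range φ)) y) :
    ∃ q : Polynomial (MvPolynomial (Fin 3) k), q ≠ 0 ∧ psi φ y q = 0 ∧
      q.natDegree ≤ (minpoly (IntermediateField.adjoin k (Set.range φ)) y).natDegree := by
  classical
  set μ := minpoly (IntermediateField.adjoin k (Set.range φ)) y with hμ
  have hmon : μ.Monic := minpoly.monic hy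
  have h1 : ∀ j : ℕ, ∃ r s : MvPolynomial (Fin 3) k, aeval φ s ≠ 0 ∧
      ((μ.coeff j : IntermediateField.adjoin k (Set.range φ)) : K) * aeval φ s = aeval φ r :=
    fun j => exists_frac (μ.coeff j).2
  choose r s hs hrs using h1
  set n := μ.natDegree with hn
  set q : Polynomial (MvPolynomial (Fin 3) k) := ∑ j ∈ Finset.range (n + 1),
    Polynomial.C (r j * ∏ i ∈ (Finset.range (n + 1)).erase j, s i) * Polynomial.X ^ j with hq
  have hqn : q.coeff n = r n * ∏ i ∈ (Finset.range (n + 1)).erase n, s i := by
    rw [hq, Polynomial.finsetSum_coeff, Finset.sum_eq_single n]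
    · rw [Polynomial.coeff_C_mul, Polynomial.coeff_X_pow, if_pos rfl, mul_one]
    · intro j _ hj
      rw [Polynomial.coeff_C_mul, Polynomial.coeff_X_pow, if_neg (Ne.symm hj), mul_zero]
    · intro h
      exact absurd (Finset.mem_range.2 (Nat.lt_succ_self n)) h
  refine ⟨q, ?_, ?_, ?_⟩
  · intro h0
    rw [h0, Polynomial.coeff_zero] at hqn
    have h2 : aeval φ (r n * ∏ i ∈ (Finset.range (n + 1)).erase n, s i) = 0 := by
      rw [← hqn, map_zero]
    rw [map_mul, map_prod] at h2
    rcases mul_eq_zero.1 h2 with h3 | h3
    · rw [← hrs n] at h3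
      have h4 : μ.coeff n = 1 := hmon
      rw [h4] at h3
      have h5 : ((1 : IntermediateField.adjoin k (Set.range φ)) : K) * aeval φ (s n) =
          aeval φ (s n) := one_mul _
      rw [h5] at h3
      exact hs n h3
    · rw [Finset.prod_eq_zero_iff] at h3
      obtain ⟨i, -, hi⟩ := h3
      exact hs i hi
  · have h2 : Polynomial.aeval y μ = 0 := minpoly.aeval _ _
    rw [Polynomial.aeval_eq_sum_range] at h2
    rw [hq, map_sum]
    have h3 : ∀ j ∈ Finset.range (n + 1), psi φ y (Polynomial.C (r j *
        ∏ i ∈ (Finset.range (n + 1)).erase j, s i) * Polynomial.X ^ j) =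
        (∏ i ∈ Finset.range (n + 1), aeval φ (s i)) * (μ.coeff j • y ^ j) := by
      intro j hj
      rw [map_mul, map_pow, psi_C, psi_X, map_mul, map_prod, ← hrs j,
        ← Finset.mul_prod_erase _ _ hj]
      have h4 : μ.coeff j • y ^ j =
          ((μ.coeff j : IntermediateField.adjoin k (Set.range φ)) : K) * y ^ j := rfl
      rw [h4]
      ring
    rw [Finset.sum_congr rfl h3, ← Finset.mul_sum, h2, mul_zero]
  · rw [hq]
    refine Polynomial.natDegree_sum_le_of_forall_le _ _ fun j hj => ?_
    refine (Polynomial.natDegree_C_mul_X_pow_le _ _).trans ?_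
    exact Nat.lt_succ_iff.1 (Finset.mem_range.1 hj)

theorem lc_mem {φ : Fin 3 → K} (E : IntermediateField k K) (h : ∀ i, φ i ∈ E)
    (s : Fin 3 → k) : lc s φ ∈ E := by
  unfold lc
  exact sum_mem fun i _ => E.smul_mem (h i)

theorem finrank_insert (S : Set K) (c : K) (hc : IsIntegral (IntermediateField.adjoin k S) c) :
    dg k S = (minpoly (IntermediateField.adjoin k S) c).natDegree * dg k (insert c S) := by
  rw [← Pool.Agent.H98.TD.pf_ADJ k K S c]
  unfold dg
  rw [← IntermediateField.adjoin.finrank hc]
  exact (Module.finrank_mul_finrank _ _ _).symm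

theorem exists_compl {s' s'' : Fin 3 → k} (h : LinearIndependent k ![s', s'']) :
    ∃ M : Matrix (Fin 3) (Fin 3) k, M 1 = s' ∧ M 2 = s'' ∧ IsUnit M.det := by
  obtain ⟨s, hs⟩ : ∃ s : Fin 3 → k, s ∉ Submodule.span k (Set.range ![s', s'']) := by
    by_contra hcon
    push Not at hcon
    have h1 : Submodule.span k (Set.range ![s', s'']) = ⊤ :=
      Submodule.eq_top_iff'.2 hcon
    have h2 := finrank_range_le_card (R := k) ![s', s'']
    unfold Set.finrank at h2
    rw [h1, finrank_top, Module.finrank_fin_fun, Fintype.card_fin] at h2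
    omega
  have h1 : LinearIndependent k (Fin.cons s ![s', s''] : Fin 3 → Fin 3 → k) :=
    linearIndependent_finCons.2 ⟨h, hs⟩
  refine ⟨Fin.cons s ![s', s''], rfl, rfl, ?_⟩
  rw [← Matrix.isUnit_iff_isUnit_det, ← Matrix.linearIndependent_rows_iff_isUnit]
  exact h1

theorem th_zero [Infinite k] {p : Polynomial (MvPolynomial (Fin 3) k)}
    (h : ∀ u r, th u r p = 0) : p = 0 := by
  ext1 j
  rw [Polynomial.coeff_zero]
  apply MvPolynomial.funext
  intro u
  rw [map_zero]
  have h1 : p.map (eval u) = 0 := by
    apply Polynomial.funext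
    intro r
    rw [Polynomial.eval_zero, Polynomial.eval_map]
    exact h u r
  have h2 : (p.map (eval u)).coeff j = 0 := by rw [h1, Polynomial.coeff_zero]
  rwa [Polynomial.coeff_map] at h2

theorem deg_ineq [Infinite k] (htr : Algebra.trdeg k K = 3) {φ : Fin 3 → K}
    (halg : Algebra.IsAlgebraic (IntermediateField.adjoin k (Set.range φ)) K) {l : K}
    {p : Polynomial (MvPolynomial (Fin 3) k)} (hp : MinP φ l p) {Y : ℕ}
    (hY : ∀ j, (p.coeff j).totalDegree ≤ Y) (s' s'' : Fin 3 → k) :
    dg k {l, lc s' φ, lc s'' φ} * p.natDegree ≤ Y * dg k (Set.range φ) := by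
  classical
  set S : Set K := {l, lc s' φ, lc s'' φ} with hS
  set κ := IntermediateField.adjoin k S with hκ
  by_cases h0 : dg k S = 0
  · rw [h0, zero_mul]
    exact Nat.zero_le _
  have hfin : Module.Finite κ K := Module.finite_of_finrank_pos (Nat.pos_of_ne_zero h0)
  have halgκ : Algebra.IsAlgebraic κ K := inferInstance
  have hrg : Set.range ![l, lc s' φ, lc s'' φ] = S := by
    rw [Matrix.range_cons, Matrix.range_cons, Matrix.range_cons, Matrix.range_empty,
      Set.union_empty]
    rfl
  have htb : IsTranscendenceBasis k ![l, lc s' φ, lc s'' φ] := by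
    apply tb_of_gen _ _ htr
    rw [hrg]
    exact halgκ
  have hai := htb.1
  have hli : LinearIndependent k ![s', s''] := by
    have h1 := hai.linearIndependent
    have h2 : LinearIndependent k (fun i : Fin 2 => ![l, lc s' φ, lc s'' φ] i.succ) :=
      h1.comp Fin.succ (Fin.succ_injective 2)
    let f : (Fin 3 → k) →ₗ[k] K := Fintype.linearCombination k φ
    have hf : (fun i : Fin 2 => ![l, lc s' φ, lc s'' φ] i.succ) = f ∘ ![s', s''] := by
      funext i
      fin_cases i
      · exact (Fintype.linearCombination_apply k φ s').symm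
      · exact (Fintype.linearCombination_apply k φ s'').symm
    rw [hf] at h2
    exact LinearIndependent.of_comp f h2
  obtain ⟨M, hM1, hM2, hM⟩ := exists_compl hli
  set N := M⁻¹ with hN
  have hNM : N * M = 1 := Matrix.nonsing_inv_mul M hM
  have hMN : M * N = 1 := Matrix.mul_nonsing_inv M hM
  set a'' : K := lc (M 0) φ with ha''
  -- the coordinates
  have hφ : ∀ i, φ i = algebraMap k K (N i 0) * a'' + algebraMap k K (N i 1) * lc s' φ +
      algebraMap k K (N i 2) * lc s'' φ := by
    intro i
    have h1 : ∀ m : Fin 3, lc (M m) φ = ∑ j, algebraMap k K (M m j) * φ j := by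
      intro m
      unfold lc
      exact Finset.sum_congr rfl fun j _ => Algebra.smul_def _ _
    have h2 : φ i = ∑ m : Fin 3, algebraMap k K (N i m) * lc (M m) φ := by
      have h3 : ∀ m : Fin 3, algebraMap k K (N i m) * lc (M m) φ =
          ∑ j, algebraMap k K (N i m * M m j) * φ j := by
        intro m
        rw [h1, Finset.mul_sum]
        refine Finset.sum_congr rfl fun j _ => ?_
        rw [map_mul]
        ring
      rw [Finset.sum_congr rfl fun m _ => h3 m, Finset.sum_comm]
      have h4 : ∀ j : Fin 3, ∑ m : Fin 3, algebraMap k K (N i m * M m j) * φ j =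
          algebraMap k K ((1 : Matrix (Fin 3) (Fin 3) k) i j) * φ j := by
        intro j
        rw [← Finset.sum_mul, ← map_sum, ← hNM]
        rfl
      rw [Finset.sum_congr rfl fun j _ => h4 j, Finset.sum_eq_single i]
      · rw [Matrix.one_apply_eq, map_one, one_mul]
      · intro j _ hj
        rw [Matrix.one_apply_ne (Ne.symm hj), map_zero, zero_mul]
      · intro h
        exact absurd (Finset.mem_univ i) h
    rw [h2, Fin.sum_univ_three, hM1, hM2]
  -- the two fields are equal
  have heq : IntermediateField.adjoin k (insert a'' S) =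
      IntermediateField.adjoin k (insert l (Set.range φ)) := by
    have hφm : ∀ i, φ i ∈ IntermediateField.adjoin k (insert l (Set.range φ)) := fun i =>
      IntermediateField.subset_adjoin _ _ (Set.mem_insert_of_mem _ ⟨i, rfl⟩)
    apply le_antisymm
    · rw [IntermediateField.adjoin_le_iff]
      rintro x (rfl | rfl | rfl | rfl)
      · exact lc_mem _ hφm _
      · exact IntermediateField.subset_adjoin _ _ (Set.mem_insert _ _)
      · exact lc_mem _ hφm _
      · exact lc_mem _ hφm _
    · rw [IntermediateField.adjoin_le_iff]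
      have e1 : l ∈ IntermediateField.adjoin k (insert a'' S) :=
        IntermediateField.subset_adjoin _ _ (Set.mem_insert_of_mem _ (Or.inl rfl))
      have e2 : lc s' φ ∈ IntermediateField.adjoin k (insert a'' S) :=
        IntermediateField.subset_adjoin _ _ (Set.mem_insert_of_mem _ (Or.inr (Or.inl rfl)))
      have e3 : lc s'' φ ∈ IntermediateField.adjoin k (insert a'' S) :=
        IntermediateField.subset_adjoin _ _ (Set.mem_insert_of_mem _ (Or.inr (Or.inr rfl)))
      have e4 : a'' ∈ IntermediateField.adjoin k (insert a'' S) :=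
        IntermediateField.subset_adjoin _ _ (Set.mem_insert _ _)
      rintro x (rfl | ⟨i, rfl⟩)
      · exact e1
      · rw [SetLike.mem_coe, hφ i]
        exact add_mem (add_mem (mul_mem (IntermediateField.algebraMap_mem _ _) e4)
          (mul_mem (IntermediateField.algebraMap_mem _ _) e2))
          (mul_mem (IntermediateField.algebraMap_mem _ _) e3)
  -- the equation of the third form
  let lκ : κ := ⟨l, IntermediateField.subset_adjoin _ _ (Or.inl rfl)⟩
  let aκ : κ := ⟨lc s' φ, IntermediateField.subset_adjoin _ _ (Or.inr (Or.inl rfl))⟩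
  let bκ : κ := ⟨lc s'' φ, IntermediateField.subset_adjoin _ _ (Or.inr (Or.inr rfl))⟩
  let fi : Fin 3 → Polynomial κ := fun i => Polynomial.C (algebraMap k κ (N i 0)) *
    Polynomial.X + Polynomial.C (algebraMap k κ (N i 1) * aκ + algebraMap k κ (N i 2) * bκ)
  let σ : MvPolynomial (Fin 3) k →ₐ[k] Polynomial κ := aeval fi
  set F : Polynomial κ := Polynomial.eval₂ σ.toRingHom (Polynomial.C lκ) p with hF
  have hroot : Polynomial.aeval a'' F = 0 := by
    have h1 : Polynomial.aeval a'' F = psi φ l p := by
      rw [hF]
      change (Polynomial.aeval a'' : Polynomial κ →ₐ[κ] K).toRingHom _ = _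
      rw [Polynomial.hom_eval₂]
      unfold psi
      rw [Polynomial.coe_eval₂RingHom]
      have h2 : ((Polynomial.aeval a'' : Polynomial κ →ₐ[κ] K).toRingHom.comp σ.toRingHom) =
          (aeval φ : MvPolynomial (Fin 3) k →ₐ[k] K).toRingHom := by
        apply MvPolynomial.ringHom_ext
        · intro c
          change Polynomial.aeval a'' (aeval fi (C c)) = aeval φ (C c)
          rw [aeval_C, aeval_C, IsScalarTower.algebraMap_apply k κ (Polynomial κ),
            Polynomial.algebraMap_apply, Algebra.algebraMap_self, RingHom.id_apply,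
            Polynomial.aeval_C]
          rfl
        · intro i
          change Polynomial.aeval a'' (aeval fi (X i)) = aeval φ (X i)
          rw [aeval_X, aeval_X, map_add, map_mul, Polynomial.aeval_C, Polynomial.aeval_X,
            Polynomial.aeval_C, hφ i, map_add, map_mul, map_mul]
          change algebraMap k K (N i 0) * a'' + (algebraMap k K (N i 1) * lc s' φ +
            algebraMap k K (N i 2) * lc s'' φ) = _
          ring
      rw [h2]
      change Polynomial.eval₂ _ (Polynomial.aeval a'' (Polynomial.C lκ)) p = _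
      rw [Polynomial.aeval_C]
      rfl
    rw [h1, hp.root]
  have hdeg : F.natDegree ≤ Y := by
    rw [hF, Polynomial.eval₂_eq_sum_range]
    refine Polynomial.natDegree_sum_le_of_forall_le _ _ fun j _ => ?_
    refine Polynomial.natDegree_mul_le.trans ?_
    rw [← Polynomial.C_pow, Polynomial.natDegree_C, add_zero]
    change (aeval fi (p.coeff j)).natDegree ≤ Y
    rw [← MvPolynomial.aeval_map_algebraMap κ]
    have h1 := MvPolynomial.aeval_natDegree_le (m := Y)
      (MvPolynomial.map (algebraMap k κ) (p.coeff j))
      ((Finset.sup_mono (MvPolynomial.support_map_subset _ _)).trans (hY j)) fi (n := 1)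
      (fun i => by
        refine (Polynomial.natDegree_add_le _ _).trans (max_le ?_ ?_)
        · exact (Polynomial.natDegree_C_mul_le _ _).trans Polynomial.natDegree_X_le
        · rw [Polynomial.natDegree_C]
          exact Nat.zero_le _)
    rwa [mul_one] at h1
  have hF0 : F ≠ 0 := by
    intro hF0
    apply hp.ne
    apply th_zero
    intro u r
    -- the point
    set v : Fin 3 → k := M.mulVec u with hv
    have hu : ∀ i, u i = N i 0 * v 0 + (N i 1 * v 1 + N i 2 * v 2) := by
      intro i
      have h1 : N.mulVec v = u := by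
        rw [hv, Matrix.mulVec_mulVec, hNM, Matrix.one_mulVec]
      have h2 := congrFun h1 i
      rw [← h2, Matrix.mulVec, dotProduct, Fin.sum_univ_three]
      ring
    let gi : Fin 3 → MvPolynomial (Fin 3) k := fun i => C (N i 0 * v 0) +
      (C (N i 1) * X 1 + C (N i 2) * X 2)
    let G : MvPolynomial (Fin 3) k := Polynomial.eval₂
      (aeval gi : MvPolynomial (Fin 3) k →ₐ[k] MvPolynomial (Fin 3) k).toRingHom (X 0) p
    have hG : aeval ![l, lc s' φ, lc s'' φ] G = 0 := by
      have h1 : aeval ![l, lc s' φ, lc s'' φ] G =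
          algebraMap κ K (Polynomial.eval (algebraMap k κ (v 0)) F) := by
        have e1 : Polynomial.eval (algebraMap k κ (v 0)) F =
            Polynomial.eval₂ ((Polynomial.evalRingHom (algebraMap k κ (v 0))).comp
              σ.toRingHom) lκ p := by
          rw [hF]
          change Polynomial.evalRingHom (algebraMap k κ (v 0)) _ = _
          rw [Polynomial.hom_eval₂]
          change Polynomial.eval₂ _ (Polynomial.eval (algebraMap k κ (v 0))
            (Polynomial.C lκ)) p = _
          rw [Polynomial.eval_C]
        rw [e1, Polynomial.hom_eval₂]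
        change (aeval ![l, lc s' φ, lc s'' φ] : MvPolynomial (Fin 3) k →ₐ[k] K).toRingHom _ = _
        rw [Polynomial.hom_eval₂]
        have e2 : ((aeval ![l, lc s' φ, lc s'' φ] : MvPolynomial (Fin 3) k →ₐ[k]
            K).toRingHom.comp (aeval gi : MvPolynomial (Fin 3) k →ₐ[k]
            MvPolynomial (Fin 3) k).toRingHom) = (algebraMap κ K).comp
            ((Polynomial.evalRingHom (algebraMap k κ (v 0))).comp σ.toRingHom) := by
          apply MvPolynomial.ringHom_ext
          · intro c
            change aeval ![l, lc s' φ, lc s'' φ] (aeval gi (C c)) =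
              algebraMap κ K (Polynomial.eval (algebraMap k κ (v 0)) (aeval fi (C c)))
            rw [aeval_C, aeval_C, MvPolynomial.algebraMap_eq, aeval_C,
              IsScalarTower.algebraMap_apply k κ (Polynomial κ), Polynomial.algebraMap_apply,
              Algebra.algebraMap_self, RingHom.id_apply, Polynomial.eval_C]
            rfl
          · intro i
            change aeval ![l, lc s' φ, lc s'' φ] (aeval gi (X i)) =
              algebraMap κ K (Polynomial.eval (algebraMap k κ (v 0)) (aeval fi (X i)))
            rw [aeval_X, aeval_X]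
            simp only [gi, fi, map_add, map_mul, aeval_C, aeval_X, Polynomial.eval_add,
              Polynomial.eval_mul, Polynomial.eval_C, Polynomial.eval_X]
            rfl
        rw [e2]
        congr 1
        exact aeval_X _ _
      rw [h1, hF0, Polynomial.eval_zero, map_zero]
    have hG0 : G = 0 := by
      rw [algebraicIndependent_iff_injective_aeval] at hai
      exact (map_eq_zero_iff _ hai).1 hG
    have h2 : eval ![r, v 1, v 2] G = th u r p := by
      change (eval ![r, v 1, v 2]) (Polynomial.eval₂ _ (X 0) p) = _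
      rw [Polynomial.hom_eval₂]
      unfold th
      rw [Polynomial.coe_eval₂RingHom]
      have e3 : ((eval ![r, v 1, v 2]).comp (aeval gi : MvPolynomial (Fin 3) k →ₐ[k]
          MvPolynomial (Fin 3) k).toRingHom) = eval u := by
        apply MvPolynomial.ringHom_ext
        · intro c
          change eval ![r, v 1, v 2] (aeval gi (C c)) = eval u (C c)
          rw [aeval_C, MvPolynomial.algebraMap_eq, eval_C, eval_C]
        · intro i
          change eval ![r, v 1, v 2] (aeval gi (X i)) = eval u (X i)
          rw [aeval_X, eval_X, hu i]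
          simp only [gi, map_add, map_mul, eval_C, eval_X]
          rfl
      rw [e3, eval_X]
      rfl
    rw [← h2, hG0, map_zero]
  -- the degrees
  have h1 : dg k S = (minpoly κ a'').natDegree * dg k (insert a'' S) :=
    finrank_insert S a'' (halgκ.isAlgebraic a'').isIntegral
  have h2 : dg k (insert a'' S) = dg k (insert l (Set.range φ)) := by
    unfold dg
    rw [heq]
  have h3 : (minpoly κ a'').natDegree ≤ Y :=
    (Polynomial.natDegree_le_natDegree
      (minpoly.degree_le_of_ne_zero κ a'' hF0 hroot)).trans hdeg
  have h4 : IsIntegral (IntermediateField.adjoin k (Set.range φ)) l :=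
    (halg.isAlgebraic l).isIntegral
  have h5 := finrank_insert (k := k) (Set.range φ) l h4
  obtain ⟨q, hq0, hq1, hq2⟩ := exists_poly l h4
  have h6 := (hp.min q hq0 hq1).trans hq2
  calc dg k S * p.natDegree = (minpoly κ a'').natDegree *
      (p.natDegree * dg k (insert l (Set.range φ))) := by
        rw [h1, h2]
        ring
    _ ≤ Y * ((minpoly (IntermediateField.adjoin k (Set.range φ)) l).natDegree *
        dg k (insert l (Set.range φ))) := Nat.mul_le_mul h3 (Nat.mul_le_mul_right _ h6)
    _ = Y * dg k (Set.range φ) := by rw [← h5]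

end deg

end Pool.Agent.H4.BKH
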